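import Pool.Agent.U196.SO.Stm
import Pool.Agent.U761.SZ.SARG

set_option autoImplicit false

/-!
Package EDGE of project SO (MP_4e5e8a_nt): an antiderivative of `log zeta(3/2 + iv)` is bounded.
-/

namespace Pool.Agent.U324.SO

open Filter Topology MeasureTheory Complex
open Pool.Agent.U761.SZ (lc ell ell_deriv)

noncomputable section

/-- `Λ(n) / (log n) ^ 2` -/
def lc2 (n : ℕ) : ℂ := ((ArithmeticFunction.vonMangoldt n / Real.log n ^ 2 : ℝ) : ℂ)

theorem lc2_norm (n : ℕ) : ‖lc2 n‖ ≤ 1 / Real.log 2 := by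
  have hl2 : 0 < Real.log 2 := Real.log_pos (by norm_num)
  unfold lc2
  rw [norm_real, Real.norm_eq_abs,
    abs_of_nonneg (div_nonneg ArithmeticFunction.vonMangoldt_nonneg (sq_nonneg _))]
  by_cases h : n ≤ 1
  · interval_cases n <;> simp <;> positivity
  · have h2 : (2 : ℝ) ≤ n := by exact_mod_cast (by omega : 2 ≤ n)
    have h3 : Real.log 2 ≤ Real.log n := Real.log_le_log (by norm_num) h2
    have h4 : 0 < Real.log n := lt_of_lt_of_le hl2 h3
    have h5 : ArithmeticFunction.vonMangoldt n ≤ Real.log n :=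
      ArithmeticFunction.vonMangoldt_le_log
    calc ArithmeticFunction.vonMangoldt n / Real.log n ^ 2 ≤ Real.log n / Real.log n ^ 2 := by
          gcongr
      _ = 1 / Real.log n := by field_simp
      _ ≤ 1 / Real.log 2 := by gcongr

theorem lc2_absc {s : ℂ} (hs : 1 < s.re) : LSeries.abscissaOfAbsConv lc2 < s.re := by
  have h1 : LSeries.abscissaOfAbsConv lc2 ≤ 1 :=
    LSeries.abscissaOfAbsConv_le_of_le_const ⟨1 / Real.log 2, fun n _ => lc2_norm n⟩
  refine h1.trans_lt ?_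
  exact_mod_cast hs

theorem logMul_lc2 : LSeries.logMul lc2 = lc := by
  funext n
  unfold LSeries.logMul lc2 lc
  by_cases h : n ≤ 1
  · interval_cases n <;> simp
  · have h1 : Real.log n ≠ 0 := by
      have : (1 : ℝ) < n := by exact_mod_cast (by omega : 1 < n)
      exact (Real.log_pos this).ne'
    have h2 : (Real.log n : ℂ) ≠ 0 := by exact_mod_cast h1
    rw [← natCast_log, ofReal_div, ofReal_div, ofReal_pow]
    field_simp

theorem lc2_deriv {s : ℂ} (hs : 1 < s.re) : HasDerivAt (LSeries lc2) (-ell s) s := by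
  have h := LSeries_hasDerivAt (lc2_absc hs)
  rw [logMul_lc2] at h
  exact h

theorem norm_L (v : ℝ) : ‖LSeries lc2 ⟨3 / 2, v⟩‖ ≤ ∑' n, ‖LSeries.term lc2 (3 / 2) n‖ := by
  have hs : LSeriesSummable lc2 (⟨3 / 2, v⟩ : ℂ) :=
    LSeriesSummable_of_abscissaOfAbsConv_lt_re (lc2_absc (by norm_num))
  have h1 : Summable (fun n => ‖LSeries.term lc2 (⟨3 / 2, v⟩ : ℂ) n‖) := hs.norm
  refine (norm_tsum_le_tsum_norm h1).trans (le_of_eq ?_)
  refine tsum_congr fun n => ?_
  rw [LSeries.norm_term_eq, LSeries.norm_term_eq]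
  have e : ((3 / 2 : ℂ)).re = 3 / 2 := by
    norm_num
  rw [e]

theorem line_eq (v : ℝ) : (⟨3 / 2, v⟩ : ℂ) = (3 / 2 : ℂ) + v * I := by
  apply Complex.ext <;> simp

theorem hd_line (v : ℝ) :
    HasDerivAt (fun v : ℝ => (LSeries lc2 (⟨3 / 2, v⟩ : ℂ)).re) (ell ⟨3 / 2, v⟩).im v := by
  have h1 := lc2_deriv (s := (3 / 2 : ℂ) + v * I) (by norm_num)
  have h2 : HasDerivAt (fun u : ℝ => (3 / 2 : ℂ) + u * I) I v := by
    have h3 := ((hasDerivAt_id (v : ℝ)).ofReal_comp.mul_const I).const_add (3 / 2 : ℂ)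
    simpa using h3
  have h3 := h1.comp v h2
  have h4 := Complex.reCLM.hasFDerivAt.comp_hasDerivAt v h3
  have e1 : (fun v : ℝ => (LSeries lc2 (⟨3 / 2, v⟩ : ℂ)).re) =
      Complex.reCLM ∘ (LSeries lc2 ∘ fun u : ℝ => (3 / 2 : ℂ) + u * I) := by
    funext v
    simp [line_eq]
  have e2 : (ell ⟨3 / 2, v⟩).im = Complex.reCLM (-ell ((3 / 2 : ℂ) + v * I) * I) := by
    rw [line_eq]
    simp
  rw [e1, e2]
  exact h4

theorem ell_im_cont : Continuous (fun v : ℝ => (ell ⟨3 / 2, v⟩).im) := by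
  rw [continuous_iff_continuousAt]
  intro v
  have h1 := (ell_deriv (s := (3 / 2 : ℂ) + v * I) (by norm_num)).continuousAt
  have h2 : ContinuousAt (fun u : ℝ => (3 / 2 : ℂ) + u * I) v := by fun_prop
  have h3 : ContinuousAt (fun u : ℝ => (ell ((3 / 2 : ℂ) + u * I)).im) v :=
    Complex.continuous_im.continuousAt.comp (ContinuousAt.comp (f := fun u : ℝ =>
      (3 / 2 : ℂ) + u * I) (g := ell) h1 h2)
  have e1 : (fun v : ℝ => (ell ⟨3 / 2, v⟩).im) = fun u : ℝ => (ell ((3 / 2 : ℂ) + u * I)).im := by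
    funext v
    rw [line_eq]
  rw [e1]
  exact h3

theorem t_EDGE : Pool.Agent.U196.SO.S_EDGE := by
  refine ⟨2 * ∑' n, ‖LSeries.term lc2 (3 / 2) n‖, ?_, fun u _ => ?_⟩
  · have : 0 ≤ ∑' n, ‖LSeries.term lc2 (3 / 2) n‖ := tsum_nonneg fun n => norm_nonneg _
    positivity
  · rw [intervalIntegral.integral_eq_sub_of_hasDerivAt (fun v _ => hd_line v)
      (ell_im_cont.intervalIntegrable _ _)]
    have h1 := (Complex.abs_re_le_norm (LSeries lc2 (⟨3 / 2, u⟩ : ℂ))).trans (norm_L u)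
    have h2 := (Complex.abs_re_le_norm (LSeries lc2 (⟨3 / 2, 100⟩ : ℂ))).trans (norm_L 100)
    refine (abs_sub _ _).trans ?_
    linarith

end

end Pool.Agent.U324.SO
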